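import Pool.Agent.Lib_helper92.James.Semi

/-!
The seminormal modules of the Hecke algebra: functions on a good set of content sequences; the
Jucys-Murphy elements act diagonally; the contravariant form.
-/

set_option autoImplicit false

namespace Pool.Agent.JamesSemi

variable {K : Type*} [Field K]

/-- The relations of the Hecke algebra `H_n` (generators `T 0, ..., T (n - 2)`) in an algebra. -/
structure HeckeRel {M : Type*} [Ring M] [Algebra K M] (q : K) (n : ℕ) (T : ℕ → M) : Prop where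
  quad : ∀ j, j + 1 < n → T j * T j = (q - 1) • T j + q • 1
  braid : ∀ j, j + 2 < n → T j * T (j + 1) * T j = T (j + 1) * T j * T (j + 1)
  comm : ∀ j k, j + 1 < k → k + 1 < n → T j * T k = T k * T j

/-- Good sets of content sequences. -/
structure GoodSet (n : ℕ) (C : Set (ℕ → ℤ)) : Prop where
  ne1 : ∀ α ∈ C, ∀ j, j + 1 < n → α j ≠ α (j + 1)
  ne2 : ∀ α ∈ C, ∀ j, j + 2 < n → α j ≠ α (j + 2)
  sw_mem : ∀ α ∈ C, ∀ j, j + 1 < n → ¬ (α j - α (j + 1) = 1 ∨ α j - α (j + 1) = -1) → sw j α ∈ C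
  bdd : ∀ α ∈ C, ∀ i j, i < n → j < n → |α i - α j| < n

open scoped Classical in
/-- The operator `T j` on functions on `C`. -/
noncomputable def sT (q : K) (C : Set (ℕ → ℤ)) (j : ℕ) : Module.End K (C → K) where
  toFun f α := cA q (α.1 j) (α.1 (j + 1)) * f α +
    if h : sw j α.1 ∈ C then cB q (α.1 j) (α.1 (j + 1)) * f ⟨sw j α.1, h⟩ else 0
  map_add' f g := by
    funext α
    simp only [Pi.add_apply]
    split_ifs <;> ring
  map_smul' c f := by
    funext α
    simp only [Pi.smul_apply, smul_eq_mul, RingHom.id_apply]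
    split_ifs <;> ring

/-- Extension by zero. -/
noncomputable def ext0 (C : Set (ℕ → ℤ)) (f : C → K) (α : ℕ → ℤ) : K :=
  open scoped Classical in if h : α ∈ C then f ⟨α, h⟩ else 0

theorem ext0_mem {C : Set (ℕ → ℤ)} (f : C → K) (α : C) : ext0 C f α.1 = f α := by
  unfold ext0
  rw [dif_pos α.2]

theorem sT_apply {q : K} {C : Set (ℕ → ℤ)} (j : ℕ) (f : C → K) (α : C) :
    sT q C j f α = opT q j (ext0 C f) α.1 := by
  unfold sT opT
  simp only [LinearMap.coe_mk, AddHom.coe_mk]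
  rw [ext0_mem]
  unfold ext0
  split_ifs with h
  · rfl
  · rw [mul_zero]

/-- The operator only depends on the values on `C`. -/
theorem opT_congr {q : K} {n : ℕ} {C : Set (ℕ → ℤ)} (hC : GoodSet n C) {j : ℕ} (hj : j + 1 < n)
    {f g : (ℕ → ℤ) → K} (h : ∀ α ∈ C, f α = g α) {α : ℕ → ℤ} (hα : α ∈ C) :
    opT q j f α = opT q j g α := by
  unfold opT
  rw [h α hα]
  by_cases hd : α j - α (j + 1) = 1 ∨ α j - α (j + 1) = -1
  · unfold cB
    rw [if_pos hd]
    ring
  · rw [h _ (hC.sw_mem α hα j hj hd)]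

theorem ext0_sT {q : K} {C : Set (ℕ → ℤ)} (j : ℕ) (f : C → K) (α : ℕ → ℤ) (hα : α ∈ C) :
    ext0 C (sT q C j f) α = opT q j (ext0 C f) α := by
  rw [ext0_mem (sT q C j f) ⟨α, hα⟩, sT_apply]

theorem gen_pow {q : K} {n : ℕ} (hq : Gen q n) {a b : ℤ} (hab : a ≠ b) (h : |a - b| < n) :
    q ^ (a - b) ≠ 1 :=
  hq.2 _ (sub_ne_zero.2 hab) h

/-- The seminormal module. -/
theorem semiRel {q : K} {n : ℕ} (hq : Gen q n) {C : Set (ℕ → ℤ)} (hC : GoodSet n C) :
    HeckeRel q n (sT q C) := by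
  have gp : ∀ α ∈ C, ∀ i j, i < n → j < n → α i ≠ α j → q ^ (α i - α j) ≠ 1 :=
    fun α hα i j hi hj h => gen_pow hq h (hC.bdd α hα i j hi hj)
  constructor
  · intro j hj
    ext f α
    simp only [Module.End.mul_apply, LinearMap.add_apply, LinearMap.smul_apply,
      Module.End.one_apply, Pi.add_apply, Pi.smul_apply, smul_eq_mul]
    rw [sT_apply, opT_congr hC hj (fun β hβ => ext0_sT j f β hβ) α.2,
      opT_quad hq.1 j _ _ (gp α.1 α.2 j (j + 1) (by omega) hj (hC.ne1 α.1 α.2 j hj)),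
      sT_apply, ext0_mem]
  · intro j hj
    ext f α
    simp only [Module.End.mul_apply]
    have key : ∀ i k, i + 1 < n → k + 1 < n → ∀ l, l + 1 < n →
        sT q C i (sT q C k (sT q C l f)) α =
          opT q i (opT q k (opT q l (ext0 C f))) α.1 := by
      intro i k hi hk l hl
      rw [sT_apply]
      apply opT_congr hC hi _ α.2
      intro β hβ
      rw [ext0_sT k _ β hβ]
      exact opT_congr hC hk (fun γ hγ => ext0_sT l f γ hγ) hβ
    rw [key j (j + 1) (by omega) (by omega) j (by omega),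
      key (j + 1) j (by omega) (by omega) (j + 1) (by omega)]
    apply opT_braid hq.1
    · exact gp α.1 α.2 j (j + 1) (by omega) (by omega) (hC.ne1 α.1 α.2 j (by omega))
    · exact gp α.1 α.2 (j + 1) (j + 2) (by omega) hj (hC.ne1 α.1 α.2 (j + 1) hj)
    · exact gp α.1 α.2 j (j + 2) (by omega) hj (hC.ne2 α.1 α.2 j hj)
  · intro j k hjk hk
    ext f α
    simp only [Module.End.mul_apply]
    rw [sT_apply, opT_congr hC (by omega) (fun β hβ => ext0_sT k f β hβ) α.2,
      opT_comm hjk, sT_apply, opT_congr hC hk (fun β hβ => ext0_sT j f β hβ) α.2]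

/-- The operator of multiplication by `q ^ (α k)`. -/
noncomputable def sL (q : K) (C : Set (ℕ → ℤ)) (k : ℕ) : Module.End K (C → K) where
  toFun f α := q ^ (α.1 k) * f α
  map_add' f g := by
    funext α
    simp only [Pi.add_apply]
    ring
  map_smul' c f := by
    funext α
    simp only [Pi.smul_apply, smul_eq_mul, RingHom.id_apply]
    ring

theorem sL_apply {q : K} {C : Set (ℕ → ℤ)} (k : ℕ) (f : C → K) (α : C) :
    sL q C k f α = q ^ (α.1 k) * f α := rfl

/-- The recursion `T L_k T = q L_{k+1}` of the Jucys-Murphy elements. -/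
theorem sT_sL_sT {q : K} {n : ℕ} (hq : Gen q n) {C : Set (ℕ → ℤ)} (hC : GoodSet n C) {j : ℕ}
    (hj : j + 1 < n) : sT q C j * sL q C j * sT q C j = q • sL q C (j + 1) := by
  ext f α
  simp only [Module.End.mul_apply, LinearMap.smul_apply, Pi.smul_apply, smul_eq_mul]
  rw [sL_apply, sT_apply]
  have h1 : ∀ β ∈ C, ext0 C (sL q C j (sT q C j f)) β =
      q ^ (β j) * opT q j (ext0 C f) β := by
    intro β hβ
    rw [ext0_mem (sL q C j (sT q C j f)) ⟨β, hβ⟩, sL_apply, sT_apply]
  rw [opT_congr hC hj h1 α.2]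
  unfold opT
  simp only [sw_left, sw_right, sw_sw, ext0_mem]
  have hne := gen_pow hq (hC.ne1 α.1 α.2 j hj) (hC.bdd α.1 α.2 j (j + 1) (by omega) hj)
  have e1 := cA_sq hq.1 hne
  have e2 := cA_add hq.1 hne
  have e3 : cA q (α.1 j) (α.1 (j + 1)) * (1 - q ^ (α.1 j - α.1 (j + 1))) = q - 1 := by
    unfold cA
    field_simp [one_sub_ne hne]
  have e4 : q ^ (α.1 j) = q ^ (α.1 j - α.1 (j + 1)) * q ^ (α.1 (j + 1)) := by
    rw [← zpow_add₀ hq.1]
    congr 1
    ring
  have e5 : cA q (α.1 j) (α.1 (j + 1)) * q ^ (α.1 j) +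
      cA q (α.1 (j + 1)) (α.1 j) * q ^ (α.1 (j + 1)) = 0 := by
    rw [e4]
    linear_combination (q ^ (α.1 (j + 1))) * e2 - (q ^ (α.1 (j + 1))) * e3
  have e6 : cA q (α.1 j) (α.1 (j + 1)) * (q ^ (α.1 j) * cA q (α.1 j) (α.1 (j + 1))) +
      cB q (α.1 j) (α.1 (j + 1)) * (q ^ (α.1 (j + 1)) * cB q (α.1 (j + 1)) (α.1 j)) =
      q * q ^ (α.1 (j + 1)) := by
    rw [e4]
    linear_combination (q ^ (α.1 (j + 1))) * e1 -
      cA q (α.1 j) (α.1 (j + 1)) * q ^ (α.1 (j + 1)) * e3
  linear_combination (f α) * e6 + (cB q (α.1 j) (α.1 (j + 1)) * ext0 C f (sw j α.1)) * e5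

/-- A weight function for the contravariant form. -/
structure IsWt (q : K) (n : ℕ) (C : Set (ℕ → ℤ)) (γ : C → K) : Prop where
  bal : ∀ (α : C) (j : ℕ), j + 1 < n → ∀ h : sw j α.1 ∈ C,
    γ α * cB q (α.1 j) (α.1 (j + 1)) = γ ⟨sw j α.1, h⟩ * cB q (α.1 (j + 1)) (α.1 j)

/-- The form. -/
noncomputable def sF {C : Set (ℕ → ℤ)} [Fintype C] (γ : C → K) (f g : C → K) : K :=
  ∑ α, γ α * f α * g α

/-- The involution `α ↦ sw j α` where possible. -/
noncomputable def swC (C : Set (ℕ → ℤ)) (j : ℕ) (α : C) : C :=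
  open scoped Classical in if h : sw j α.1 ∈ C then ⟨sw j α.1, h⟩ else α

theorem swC_pos {C : Set (ℕ → ℤ)} {j : ℕ} {α : C} (h : sw j α.1 ∈ C) :
    swC C j α = ⟨sw j α.1, h⟩ := by
  unfold swC
  rw [dif_pos h]

theorem swC_neg {C : Set (ℕ → ℤ)} {j : ℕ} {α : C} (h : sw j α.1 ∉ C) : swC C j α = α := by
  unfold swC
  rw [dif_neg h]

theorem swC_swC (C : Set (ℕ → ℤ)) (j : ℕ) (α : C) : swC C j (swC C j α) = α := by
  by_cases h : sw j α.1 ∈ C
  · have h2 : sw j (⟨sw j α.1, h⟩ : C).1 ∈ C := by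
      simp only
      rw [sw_sw]
      exact α.2
    rw [swC_pos h, swC_pos h2]
    exact Subtype.ext (sw_sw j α.1)
  · rw [swC_neg h, swC_neg h]

/-- `T j` is self-adjoint. -/
theorem sF_sT {q : K} {n : ℕ} {C : Set (ℕ → ℤ)} [Fintype C] {γ : C → K} (hγ : IsWt q n C γ)
    {j : ℕ} (hj : j + 1 < n) (f g : C → K) : sF γ (sT q C j f) g = sF γ f (sT q C j g) := by
  have hsplit : ∀ f g : C → K, sF γ (sT q C j f) g =
      ∑ α, γ α * cA q (α.1 j) (α.1 (j + 1)) * f α * g α +
      ∑ α, (open scoped Classical in if sw j α.1 ∈ C then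
        γ α * cB q (α.1 j) (α.1 (j + 1)) * f (swC C j α) * g α else 0) := by
    intro f g
    unfold sF
    rw [← Finset.sum_add_distrib]
    apply Finset.sum_congr rfl
    intro α _
    unfold sT swC
    simp only [LinearMap.coe_mk, AddHom.coe_mk]
    by_cases h : sw j α.1 ∈ C
    · simp only [dif_pos h, if_pos h]
      ring
    · simp only [dif_neg h, if_neg h]
      ring
  have hcomm : sF γ f (sT q C j g) = sF γ (sT q C j g) f := by
    unfold sF
    apply Finset.sum_congr rfl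
    intro α _
    ring
  rw [hcomm, hsplit f g, hsplit g f]
  congr 1
  · apply Finset.sum_congr rfl
    intro α _
    ring
  · refine Finset.sum_bij' (fun α _ => swC C j α) (fun α _ => swC C j α)
      (fun _ _ => Finset.mem_univ _) (fun _ _ => Finset.mem_univ _)
      (fun α _ => swC_swC C j α) (fun α _ => swC_swC C j α) ?_
    intro α _
    by_cases h : sw j α.1 ∈ C
    · have e : swC C j α = ⟨sw j α.1, h⟩ := by
        unfold swC
        rw [dif_pos h]
      have h2 : sw j (swC C j α).1 ∈ C := by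
        rw [e]
        simp only
        rw [sw_sw]
        exact α.2
      rw [if_pos h, if_pos h2, swC_swC, hγ.bal α j hj h]
      rw [e]
      simp only [sw_left, sw_right]
      ring
    · have e : swC C j α = α := by
        unfold swC
        rw [dif_neg h]
      rw [if_neg h, e, if_neg h]

/-- The Jucys-Murphy operators are self-adjoint. -/
theorem sF_sL {q : K} {C : Set (ℕ → ℤ)} [Fintype C] (γ : C → K) (k : ℕ) (f g : C → K) :
    sF γ (sL q C k f) g = sF γ f (sL q C k g) := by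
  unfold sF
  apply Finset.sum_congr rfl
  intro α _
  rw [sL_apply, sL_apply]
  ring

end Pool.Agent.JamesSemi
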