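import Mathlib

/-!
Seminormal representations of the Hecke algebras of type A, on functions on content sequences.

A sequence `α : ℕ → ℤ` of contents; `T j` acts on functions of sequences by
`(T j f) α = A (α j) (α (j+1)) * f α + B (α j) (α (j+1)) * f (α ∘ swap j (j+1))`.
-/

set_option autoImplicit false

namespace Pool.Agent.JamesSemi

variable {K : Type*} [Field K]

/-- Diagonal coefficient. -/
noncomputable def cA (q : K) (a b : ℤ) : K := (q - 1) / (1 - q ^ (a - b))

/-- Off-diagonal coefficient, zero for adjacent contents. -/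
noncomputable def cB (q : K) (a b : ℤ) : K :=
  if a - b = 1 ∨ a - b = -1 then 0 else (1 - q ^ (a - b + 1)) / (1 - q ^ (a - b))

/-- The swapped sequence. -/
def sw (j : ℕ) (α : ℕ → ℤ) : ℕ → ℤ := fun k => α (Equiv.swap j (j + 1) k)

theorem sw_left (j : ℕ) (α : ℕ → ℤ) : sw j α j = α (j + 1) := by
  unfold sw
  rw [Equiv.swap_apply_left]

theorem sw_right (j : ℕ) (α : ℕ → ℤ) : sw j α (j + 1) = α j := by
  unfold sw
  rw [Equiv.swap_apply_right]

theorem sw_ne {j k : ℕ} (α : ℕ → ℤ) (h1 : k ≠ j) (h2 : k ≠ j + 1) : sw j α k = α k := by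
  unfold sw
  rw [Equiv.swap_apply_of_ne_of_ne h1 h2]

theorem sw_sw (j : ℕ) (α : ℕ → ℤ) : sw j (sw j α) = α := by
  funext k
  unfold sw
  rw [Equiv.swap_apply_self]

theorem sw_comm {j k : ℕ} (h : j + 1 < k) (α : ℕ → ℤ) : sw j (sw k α) = sw k (sw j α) := by
  funext i
  unfold sw
  have : Equiv.swap k (k + 1) (Equiv.swap j (j + 1) i) =
      Equiv.swap j (j + 1) (Equiv.swap k (k + 1) i) := by
    simp only [Equiv.swap_apply_def]
    split_ifs <;> omega
  rw [this]

theorem sw_braid (j : ℕ) (α : ℕ → ℤ) :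
    sw j (sw (j + 1) (sw j α)) = sw (j + 1) (sw j (sw (j + 1) α)) := by
  funext i
  unfold sw
  have : Equiv.swap j (j + 1) (Equiv.swap (j + 1) (j + 1 + 1) (Equiv.swap j (j + 1) i)) =
      Equiv.swap (j + 1) (j + 1 + 1) (Equiv.swap j (j + 1)
        (Equiv.swap (j + 1) (j + 1 + 1) i)) := by
    simp only [Equiv.swap_apply_def]
    split_ifs <;> omega
  rw [this]

/-- The operator on all functions. -/
noncomputable def opT (q : K) (j : ℕ) (f : (ℕ → ℤ) → K) (α : ℕ → ℤ) : K :=
  cA q (α j) (α (j + 1)) * f α + cB q (α j) (α (j + 1)) * f (sw j α)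

/-- `q` is generic up to `n`: the powers `q ^ h` with `0 < |h| < n` are different from `1`. -/
def Gen (q : K) (n : ℕ) : Prop := q ≠ 0 ∧ ∀ h : ℤ, h ≠ 0 → |h| < n → q ^ h ≠ 1

variable {q : K}

theorem one_sub_ne {a b : ℤ} (h : q ^ (a - b) ≠ 1) : 1 - q ^ (a - b) ≠ 0 := by
  intro h1
  exact h (sub_eq_zero.1 h1).symm

theorem pow_flip (a b : ℤ) : q ^ (b - a) = (q ^ (a - b))⁻¹ := by
  rw [← zpow_neg, neg_sub]

theorem cA_add (hq : q ≠ 0) {a b : ℤ} (h : q ^ (a - b) ≠ 1) :
    cA q a b + cA q b a = q - 1 := by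
  unfold cA
  rw [pow_flip a b]
  have hx : q ^ (a - b) ≠ 0 := zpow_ne_zero _ hq
  have h1 := one_sub_ne h
  generalize q ^ (a - b) = x at hx h1
  have h2 : 1 - x⁻¹ ≠ 0 := by
    intro h3
    apply h1
    have : x⁻¹ = 1 := by linear_combination -h3
    rw [inv_eq_one] at this
    rw [this, sub_self]
  have h3 : x - 1 ≠ 0 := by
    intro h4
    apply h1
    linear_combination -h4
  have h4 : (1 : K) - x⁻¹ = (x - 1) / x := by field_simp
  rw [h4]
  field_simp
  ring

/-- The quadratic relation for the coefficients. -/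
theorem cA_sq (hq : q ≠ 0) {a b : ℤ} (h : q ^ (a - b) ≠ 1) :
    cA q a b * cA q a b + cB q a b * cB q b a = (q - 1) * cA q a b + q := by
  have h1 := one_sub_ne h
  have hx : q ^ (a - b) ≠ 0 := zpow_ne_zero _ hq
  unfold cA cB
  by_cases hc : a - b = 1
  · rw [if_pos (Or.inl hc), zero_mul, hc, zpow_one]
    rw [hc, zpow_one] at h1
    field_simp
    ring
  by_cases hc' : a - b = -1
  · rw [if_pos (Or.inr hc'), zero_mul, hc', zpow_neg, zpow_one]
    rw [hc', zpow_neg, zpow_one] at h1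
    have h2 : q - 1 ≠ 0 := by
      intro h3
      apply h1
      have : q = 1 := by linear_combination h3
      rw [this]
      simp
    have h4 : (1 : K) - q⁻¹ = (q - 1) / q := by field_simp
    rw [h4]
    field_simp
    ring
  rw [if_neg (by rintro (h2 | h2) <;> omega), if_neg (by rintro (h2 | h2) <;> omega)]
  rw [zpow_add₀ hq, zpow_add₀ hq, pow_flip a b, zpow_one]
  generalize q ^ (a - b) = x at hx h1
  have h3 : x - 1 ≠ 0 := by
    intro h4
    apply h1
    linear_combination -h4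
  have h4 : (1 : K) - x⁻¹ = (x - 1) / x := by field_simp
  have h5 : (1 : K) - x⁻¹ * q = (x - q) / x := by field_simp
  rw [h4, h5]
  field_simp
  ring

theorem cA_cB (hq : q ≠ 0) {a b : ℤ} (h : q ^ (a - b) ≠ 1) :
    cA q a b * cB q a b + cB q a b * cA q b a = (q - 1) * cB q a b := by
  have := cA_add hq h
  linear_combination (cB q a b) * this

theorem cA_three (hq : q ≠ 0) {a b c : ℤ} (hab : q ^ (a - b) ≠ 1) (hbc : q ^ (b - c) ≠ 1)
    (hac : q ^ (a - c) ≠ 1) :
    cA q a b * cA q b c + cA q a c * cA q b a = cA q b c * cA q a c := by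
  unfold cA
  have e1 : q ^ (a - c) = q ^ (a - b) * q ^ (b - c) := by
    rw [← zpow_add₀ hq]
    congr 1
    ring
  have h1 := one_sub_ne hab
  have h2 := one_sub_ne hbc
  have h3 := one_sub_ne hac
  rw [pow_flip a b]
  rw [e1] at h3 ⊢
  have hx : q ^ (a - b) ≠ 0 := zpow_ne_zero _ hq
  generalize q ^ (a - b) = x at hx h1 h3 ⊢
  generalize q ^ (b - c) = y at h2 h3 ⊢
  have h4 : (1 : K) - x⁻¹ = (x - 1) / x := by field_simp
  have h5 : x - 1 ≠ 0 := by
    intro h4
    apply h1
    linear_combination -h4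
  rw [h4]
  field_simp
  ring

theorem cA_braid (hq : q ≠ 0) {a b c : ℤ} (hab : q ^ (a - b) ≠ 1) (hbc : q ^ (b - c) ≠ 1)
    (hac : q ^ (a - c) ≠ 1) :
    cA q a b * cA q a b * cA q b c + cB q a b * cB q b a * cA q a c =
      cA q b c * cA q b c * cA q a b + cB q b c * cB q c b * cA q a c := by
  have e1 := cA_sq hq hab
  have e2 := cA_sq hq hbc
  have e3 : cB q a b * cB q b a = (q - 1) * cA q a b + q - cA q a b * cA q a b := by
    linear_combination e1
  have e4 : cB q b c * cB q c b = (q - 1) * cA q b c + q - cA q b c * cA q b c := by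
    linear_combination e2
  rw [e3, e4]
  unfold cA
  have e1 : q ^ (a - c) = q ^ (a - b) * q ^ (b - c) := by
    rw [← zpow_add₀ hq]
    congr 1
    ring
  have h1 := one_sub_ne hab
  have h2 := one_sub_ne hbc
  have h3 := one_sub_ne hac
  rw [e1] at h3 ⊢
  generalize q ^ (a - b) = x at h1 h3 ⊢
  generalize q ^ (b - c) = y at h2 h3 ⊢
  field_simp
  ring

/-- Quadratic relation at a point. -/
theorem opT_quad (hq : q ≠ 0) (j : ℕ) (f : (ℕ → ℤ) → K) (α : ℕ → ℤ)
    (h : q ^ (α j - α (j + 1)) ≠ 1) :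
    opT q j (opT q j f) α = (q - 1) * opT q j f α + q * f α := by
  unfold opT
  rw [sw_left, sw_right, sw_sw]
  have h1 := cA_sq hq h
  have h2 := cA_cB hq h
  linear_combination f α * h1 + f (sw j α) * h2

/-- Braid relation at a point. -/
theorem opT_braid (hq : q ≠ 0) (j : ℕ) (f : (ℕ → ℤ) → K) (α : ℕ → ℤ)
    (h1 : q ^ (α j - α (j + 1)) ≠ 1) (h2 : q ^ (α (j + 1) - α (j + 2)) ≠ 1)
    (h3 : q ^ (α j - α (j + 2)) ≠ 1) :
    opT q j (opT q (j + 1) (opT q j f)) α = opT q (j + 1) (opT q j (opT q (j + 1) f)) α := by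
  unfold opT
  have e1 : ∀ β : ℕ → ℤ, sw j β (j + 1 + 1) = β (j + 1 + 1) := fun β =>
    sw_ne β (by omega) (by omega)
  have e2 : ∀ β : ℕ → ℤ, sw (j + 1) β j = β j := fun β => sw_ne β (by omega) (by omega)
  simp only [sw_left, sw_right, sw_sw, e1, e2]
  rw [sw_braid]
  have k1 := cA_braid hq h1 h2 h3
  have k2 := cA_three hq h1 h2 h3
  have e3 : j + 1 + 1 = j + 2 := rfl
  rw [e3]
  -- coefficient identities: (2) and (3)
  have k4 : cA q (α j) (α (j + 1)) * cA q (α j) (α (j + 2)) =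
      cA q (α (j + 1)) (α (j + 2)) * cA q (α j) (α (j + 1)) +
        cA q (α j) (α (j + 2)) * cA q (α (j + 2)) (α (j + 1)) := by
    have := cA_add hq h2
    have k5 := cA_add hq h1
    linear_combination -k2 + cA q (α j) (α (j + 2)) * k5 - cA q (α j) (α (j + 2)) * this
  linear_combination f α * k1 + cB q (α j) (α (j + 1)) * f (sw j α) * k2 +
    cB q (α (j + 1)) (α (j + 2)) * f (sw (j + 1) α) * k4

/-- Distant operators commute, everywhere. -/
theorem opT_comm {j k : ℕ} (h : j + 1 < k) (f : (ℕ → ℤ) → K) (α : ℕ → ℤ) :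
    opT q j (opT q k f) α = opT q k (opT q j f) α := by
  unfold opT
  have e1 : sw j α k = α k := sw_ne α (by omega) (by omega)
  have e2 : sw j α (k + 1) = α (k + 1) := sw_ne α (by omega) (by omega)
  have e3 : sw k α j = α j := sw_ne α (by omega) (by omega)
  have e4 : sw k α (j + 1) = α (j + 1) := sw_ne α (by omega) (by omega)
  rw [e1, e2, e3, e4, sw_comm h]
  ring

end Pool.Agent.JamesSemi
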